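import Pool.Agent.H87.FlatRD.Final

set_option autoImplicit false

namespace Pool.Agent.FlatRD

open MulOpposite

universe v

variable {A : Type v} [Ring A]

/-- maximal right ideals with noncommutative residue ring -/
def NonComm (A : Type v) [Ring A] : Set (Submodule Aᵐᵒᵖ A) :=
  {M | IsCoatom M ∧ ∃ a b : A, a * b - b * a ∉ M}

lemma crt (hD : RDist A) (s : Finset (Submodule Aᵐᵒᵖ A)) (hs : ∀ M ∈ s, IsCoatom M)
    {M : Submodule Aᵐᵒᵖ A} (hM : IsCoatom M) (hMs : M ∉ s) :
    ∃ e : A, e - 1 ∈ M ∧ ∀ M' ∈ s, e ∈ M' := by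
  classical
  induction s using Finset.induction_on with
  | empty => exact ⟨1, by simp, by simp⟩
  | insert M' s hM's ih =>
    obtain ⟨e, h1, h2⟩ := ih (fun M hM => hs M (Finset.mem_insert_of_mem hM))
      (fun h => hMs (Finset.mem_insert_of_mem h))
    have hM' := hs M' (Finset.mem_insert_self _ _)
    have hne : M' ≠ M := fun h => hMs (by rw [← h]; exact Finset.mem_insert_self _ _)
    have hnle : ¬ M' ≤ M := fun h => by
      rcases eq_or_lt_of_le h with h | h
      · exact hne h
      · exact hM.1 (hM'.2 _ h)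
    obtain ⟨g, hg, hgM⟩ := Set.not_subset.1 hnle
    obtain ⟨b, hb⟩ := exists_div hM g hgM
    refine ⟨e * (g * b), ?_, ?_⟩
    · have : e * (g * b) - 1 = (e - 1) * (g * b) + (g * b - 1) := by noncomm_ring
      rw [this]
      exact M.add_mem (mulR h1 _) hb
    · intro M'' hM''
      rcases Finset.mem_insert.1 hM'' with rfl | h
      · exact (nice hD hM').left _ _ (mulR hg _)
      · exact mulR (h2 M'' h) _

lemma partition_of_finite (hD : RDist A) (hfin : (NonComm A).Finite) : CentralPartition A := by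
  classical
  intro n W hW
  -- a first partition
  obtain ⟨y0, hy0, hsum0⟩ : ∃ y : Fin n → A, (∀ i, y i ∈ W i) ∧ ∑ i, y i = 1 := by
    let T : Submodule Aᵐᵒᵖ A :=
      { carrier := {z | ∃ y : Fin n → A, (∀ i, y i ∈ W i) ∧ ∑ i, y i = z}
        add_mem' := by
          rintro z z' ⟨y, hy, rfl⟩ ⟨y', hy', rfl⟩
          exact ⟨fun i => y i + y' i, fun i => (W i).add_mem (hy i) (hy' i),
            Finset.sum_add_distrib⟩
        zero_mem' := ⟨fun _ => 0, fun i => (W i).zero_mem, by simp⟩
        smul_mem' := by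
          rintro c z ⟨y, hy, rfl⟩
          exact ⟨fun i => c • y i, fun i => (W i).smul_mem c (hy i),
            by rw [← Finset.smul_sum]⟩ }
    have hT : ∀ z, z ∈ T ↔ ∃ y : Fin n → A, (∀ i, y i ∈ W i) ∧ ∑ i, y i = z := fun z => Iff.rfl
    have h1 : (⨆ i, W i) ≤ T := by
      apply iSup_le
      intro i z hz
      rw [hT]
      refine ⟨fun j => if j = i then z else 0, ?_, by simp⟩
      intro j
      by_cases h : j = i
      · subst h; simpa using hz
      · simp [h]
    rw [hW] at h1
    exact (hT 1).1 (h1 trivial)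
  rcases n with _ | n
  · exact ⟨y0, hy0, hsum0, fun i => i.elim0⟩
  -- the exceptional set
  let F : Finset (Submodule Aᵐᵒᵖ A) := hfin.toFinset
  have hF : ∀ M, M ∈ F ↔ (IsCoatom M ∧ ∃ a b : A, a * b - b * a ∉ M) := by
    intro M
    simp only [F, Set.Finite.mem_toFinset, NonComm]
    exact Iff.rfl
  have hex : ∀ M : Submodule Aᵐᵒᵖ A, ∃ (i : Fin (n + 1)) (w : A), M ∈ F →
      (w ∈ W i ∧ w - 1 ∈ M ∧ ∀ M' ∈ F, M' ≠ M → w ∈ M') := by
    intro M
    by_cases hMF : M ∈ F
    · have hM := ((hF M).1 hMF).1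
      have h1 : ∃ i, ¬ W i ≤ M := by
        by_contra hcon
        push Not at hcon
        have : (⨆ i, W i) ≤ M := iSup_le hcon
        rw [hW] at this
        exact hM.1 (top_le_iff.1 this)
      obtain ⟨i, hi⟩ := h1
      obtain ⟨g, hg, hgM⟩ := Set.not_subset.1 hi
      obtain ⟨b, hb⟩ := exists_div hM g hgM
      obtain ⟨e, he1, he2⟩ := crt hD (F.erase M)
        (fun M' hM' => ((hF M').1 (Finset.mem_of_mem_erase hM')).1) hM
        (Finset.notMem_erase _ _)
      refine ⟨i, g * b * e, fun _ => ⟨mulR (mulR hg _) _, ?_, ?_⟩⟩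
      · have : g * b * e - 1 = (g * b) * (e - 1) + (g * b - 1) := by noncomm_ring
        rw [this]
        exact M.add_mem ((nice hD hM).left _ _ he1) hb
      · intro M' hM' hne
        exact (nice hD ((hF M').1 hM').1).left _ _ (he2 M' (Finset.mem_erase.2 ⟨hne, hM'⟩))
    · exact ⟨0, 0, fun h => absurd h hMF⟩
  choose idx w hw using hex
  -- the corrections
  let wl : Fin (n + 1) → A := fun l => ∑ M ∈ F, if idx M = l then w M else 0
  have hwl : ∑ l, wl l = ∑ M ∈ F, w M := by
    simp only [wl]
    rw [Finset.sum_comm]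
    refine Finset.sum_congr rfl fun M _ => by simp
  have hwlW : ∀ l, wl l ∈ W l := by
    intro l
    refine (W l).sum_mem fun M hM => ?_
    by_cases h : idx M = l
    · rw [if_pos h, ← h]; exact (hw M hM).1
    · rw [if_neg h]; exact (W l).zero_mem
  refine ⟨fun l => wl l + y0 l * (1 - ∑ M ∈ F, w M), ?_, ?_, ?_⟩
  · exact fun l => (W l).add_mem (hwlW l) (mulR (hy0 l) _)
  · rw [Finset.sum_add_distrib, hwl, ← Finset.sum_mul, hsum0, one_mul]
    abel
  · intro l M hM b
    by_cases hMF : M ∈ F
    · have hl := (nice hD hM).left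
      have h1 : ∑ M' ∈ F, w M' - 1 ∈ M := by
        rw [← Finset.add_sum_erase _ _ hMF]
        have : w M + ∑ x ∈ F.erase M, w x - 1 = (w M - 1) + ∑ x ∈ F.erase M, w x := by abel
        rw [this]
        refine M.add_mem (hw M hMF).2.1 (M.sum_mem fun M' hM' => ?_)
        have h2 := Finset.mem_erase.1 hM'
        exact (hw M' h2.2).2.2 M hMF (Ne.symm h2.1)
      have h3 : y0 l * (1 - ∑ M ∈ F, w M) ∈ M := by
        apply hl
        have : 1 - ∑ M ∈ F, w M = -(∑ M ∈ F, w M - 1) := by abel
        rw [this]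
        exact M.neg_mem h1
      -- wl l ≡ 0 or 1
      have h4 : wl l - (if idx M = l then 1 else 0) ∈ M := by
        simp only [wl]
        rw [← Finset.add_sum_erase _ _ hMF]
        have h5 : (if idx M = l then w M else 0) - (if idx M = l then (1 : A) else 0) ∈ M := by
          by_cases h : idx M = l
          · rw [if_pos h, if_pos h]; exact (hw M hMF).2.1
          · rw [if_neg h, if_neg h, sub_zero]; exact M.zero_mem
        have h6 : ∑ x ∈ F.erase M, (if idx x = l then w x else 0) ∈ M := by
          refine M.sum_mem fun M' hM' => ?_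
          have h2 := Finset.mem_erase.1 hM'
          by_cases h : idx M' = l
          · rw [if_pos h]; exact (hw M' h2.2).2.2 M hMF (Ne.symm h2.1)
          · rw [if_neg h]; exact M.zero_mem
        have := M.add_mem h5 h6
        have e : (if idx M = l then w M else 0) - (if idx M = l then (1 : A) else 0) +
            ∑ x ∈ F.erase M, (if idx x = l then w x else 0) =
            (if idx M = l then w M else 0) + ∑ x ∈ F.erase M, (if idx x = l then w x else 0) -
            (if idx M = l then (1 : A) else 0) := by abel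
        rwa [e] at this
      -- conclude
      obtain ⟨ε, hε, m, hm, hme⟩ : ∃ ε : A, (ε = 0 ∨ ε = 1) ∧ ∃ m ∈ M,
          wl l + y0 l * (1 - ∑ M ∈ F, w M) = ε + m := by
        refine ⟨if idx M = l then 1 else 0, ?_, _, M.add_mem h4 h3, by abel⟩
        by_cases h : idx M = l
        · right; rw [if_pos h]
        · left; rw [if_neg h]
      change (wl l + y0 l * (1 - ∑ M ∈ F, w M)) * b -
        b * (wl l + y0 l * (1 - ∑ M ∈ F, w M)) ∈ M
      rw [hme]
      have e : (ε + m) * b - b * (ε + m) = (ε * b - b * ε) + (m * b - b * m) := by noncomm_ring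
      rw [e]
      refine M.add_mem ?_ (M.sub_mem (mulR hm _) (hl _ _ hm))
      rcases hε with rfl | rfl
      · simp
      · simp
    · by_contra hcon
      exact hMF ((hF M).2 ⟨hM, _, _, hcon⟩)

end Pool.Agent.FlatRD
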