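import Mathlib

set_option autoImplicit false

namespace Pool.Agent.FlatRD

open MulOpposite

universe v

variable {A : Type v} [Ring A]

/-- The right ideals of `A` form a distributive lattice. -/
def RDist (A : Type v) [Ring A] : Prop :=
  ∀ I J K : Submodule Aᵐᵒᵖ A, I ⊓ (J ⊔ K) = (I ⊓ J) ⊔ (I ⊓ K)

lemma mulR {I : Submodule Aᵐᵒᵖ A} {x : A} (hx : x ∈ I) (a : A) : x * a ∈ I := by
  simpa using I.smul_mem (op a) hx

/-- The criterion: for all `a, b` there is `r` with `a r ∈ b A`, `b (1 - r) ∈ a A`. -/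
lemma F1 (hD : RDist A) (a b : A) : ∃ r c d : A, a * r = b * c ∧ b * (1 - r) = a * d := by
  have h := hD (Submodule.span Aᵐᵒᵖ {a + b}) (Submodule.span Aᵐᵒᵖ {a}) (Submodule.span Aᵐᵒᵖ {b})
  have h1 : a + b ∈ Submodule.span Aᵐᵒᵖ {a + b} ⊓
      (Submodule.span Aᵐᵒᵖ {a} ⊔ Submodule.span Aᵐᵒᵖ {b}) := by
    refine ⟨Submodule.mem_span_singleton_self _, ?_⟩
    exact Submodule.add_mem_sup (Submodule.mem_span_singleton_self _)
      (Submodule.mem_span_singleton_self _)
  rw [h] at h1
  obtain ⟨p, hp, q, hq, hpq⟩ := Submodule.mem_sup.1 h1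
  obtain ⟨hp1, hp2⟩ := Submodule.mem_inf.1 hp
  obtain ⟨hq1, hq2⟩ := Submodule.mem_inf.1 hq
  obtain ⟨u, hu⟩ := Submodule.mem_span_singleton.1 hp1
  obtain ⟨u', hu'⟩ := Submodule.mem_span_singleton.1 hp2
  obtain ⟨v, hv⟩ := Submodule.mem_span_singleton.1 hq1
  obtain ⟨v', hv'⟩ := Submodule.mem_span_singleton.1 hq2
  have e1 : (a + b) * unop u = p := hu
  have e2 : a * unop u' = p := by simpa using hu'
  have e3 : (a + b) * unop v = q := hv
  have e4 : b * unop v' = q := by simpa using hv'
  refine ⟨unop v, unop v' - unop v, unop u' + unop v - 1, ?_, ?_⟩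
  · have : a * unop v + b * unop v = b * unop v' := by rw [e4, ← e3, add_mul]
    rw [mul_sub, ← this]; abel
  · have h2 : a * unop u' + (a * unop v + b * unop v) = a + b := by
      rw [e2, ← add_mul, e3, hpq]
    have h3 : b = a * unop u' + (a * unop v + b * unop v) - a := by rw [h2]; abel
    rw [mul_sub, mul_sub, mul_add, mul_one, mul_one]
    nth_rewrite 1 [h3]
    abel

section red

variable (hR : IsReduced A)

include hR

lemma sq0 {x : A} (h : x * x = 0) : x = 0 :=
  hR.eq_zero x ⟨2, by rw [pow_two]; exact h⟩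

lemma comm0 {x y : A} (h : x * y = 0) : y * x = 0 := by
  apply sq0 hR
  have : y * x * (y * x) = y * (x * y) * x := by noncomm_ring
  rw [this, h]; simp

lemma mid0 {x y : A} (h : x * y = 0) (a : A) : x * a * y = 0 := by
  apply sq0 hR
  have : x * a * y * (x * a * y) = x * a * (y * x) * (a * y) := by noncomm_ring
  rw [this, comm0 hR h]; simp

lemma sq0' {x y : A} (h : x * (x * y) = 0) : x * y = 0 := by
  apply sq0 hR
  have h2 := comm0 hR h
  have : x * y * (x * y) = x * y * x * y := by noncomm_ring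
  rw [this, h2]; simp

lemma F3 (hD : RDist A) {a x : A} (h : a * x = 0) : ∃ r : A, a * r = 0 ∧ r * x = x := by
  obtain ⟨r, c, d, h1, h2⟩ := F1 hD a x
  refine ⟨r, ?_, ?_⟩
  · apply sq0' hR
    rw [h1, ← mul_assoc, h, zero_mul]
  · have h3 : x * (1 - r) = 0 := by
      apply sq0' hR
      rw [h2, ← mul_assoc, comm0 hR h, zero_mul]
    have h4 := comm0 hR h3
    rw [sub_mul, one_mul, sub_eq_zero] at h4
    exact h4.symm

end red

/-- Maximal right ideals which are two-sided, with division residue ring. -/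
structure Nice (M : Submodule Aᵐᵒᵖ A) : Prop where
  left : ∀ a x : A, x ∈ M → a * x ∈ M
  div : ∀ a : A, a ∉ M → ∃ b : A, a * b - 1 ∈ M
  one : (1 : A) ∉ M

lemma one_notMem {M : Submodule Aᵐᵒᵖ A} (hM : IsCoatom M) : (1 : A) ∉ M := by
  intro h
  apply hM.1
  rw [Submodule.eq_top_iff']
  intro x
  have := mulR h x
  simpa using this

lemma exists_div {M : Submodule Aᵐᵒᵖ A} (hM : IsCoatom M) (a : A) (ha : a ∉ M) :
    ∃ b : A, a * b - 1 ∈ M := by
  have h1 : M < M ⊔ Submodule.span Aᵐᵒᵖ {a} := by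
    refine lt_of_le_of_ne le_sup_left ?_
    intro h
    apply ha
    rw [h]
    exact Submodule.mem_sup_right (Submodule.mem_span_singleton_self _)
  have h2 := hM.2 _ h1
  have h3 : (1 : A) ∈ M ⊔ Submodule.span Aᵐᵒᵖ {a} := by rw [h2]; trivial
  obtain ⟨m, hm, y, hy, e⟩ := Submodule.mem_sup.1 h3
  obtain ⟨b, hb⟩ := Submodule.mem_span_singleton.1 hy
  refine ⟨unop b, ?_⟩
  have hb' : a * unop b = y := by simpa using hb
  rw [hb']
  have : y - 1 = -m := by rw [← e]; abel
  rw [this]
  exact M.neg_mem hm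

/-- In a right distributive ring maximal right ideals are two-sided. -/
lemma F2 (hD : RDist A) {M : Submodule Aᵐᵒᵖ A} (hM : IsCoatom M) (a x : A) (hx : x ∈ M) :
    a * x ∈ M := by
  by_contra hax
  -- K = {y : a y ∈ M}, L = {y : y - a y ∈ M}
  let K : Submodule Aᵐᵒᵖ A :=
    { carrier := {y | a * y ∈ M}
      add_mem' := by
        intro y z hy hz
        change a * (y + z) ∈ M
        rw [mul_add]; exact M.add_mem hy hz
      zero_mem' := by change a * 0 ∈ M; rw [mul_zero]; exact M.zero_mem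
      smul_mem' := by
        intro c y hy
        change a * (c • y) ∈ M
        have : a * (c • y) = (a * y) * unop c := by simp [mul_assoc]
        rw [this]; exact mulR hy _ }
  let L : Submodule Aᵐᵒᵖ A :=
    { carrier := {y | y - a * y ∈ M}
      add_mem' := by
        intro y z hy hz
        change (y + z) - a * (y + z) ∈ M
        have : (y + z) - a * (y + z) = (y - a * y) + (z - a * z) := by noncomm_ring
        rw [this]; exact M.add_mem hy hz
      zero_mem' := by change (0 : A) - a * 0 ∈ M; simp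
      smul_mem' := by
        intro c y hy
        change (c • y) - a * (c • y) ∈ M
        have : (c • y) - a * (c • y) = (y - a * y) * unop c := by simp [mul_assoc, sub_mul]
        rw [this]; exact mulR hy _ }
  have hK : ∀ y, y ∈ K ↔ a * y ∈ M := fun y => Iff.rfl
  have hL : ∀ y, y ∈ L ↔ y - a * y ∈ M := fun y => Iff.rfl
  -- x ∈ M, x ∉ K
  -- M ⊓ (K ⊔ L) = (M ⊓ K) ⊔ (M ⊓ L) ≤ K
  have h1 : M ⊓ (K ⊔ L) ≤ K := by
    rw [hD]
    apply sup_le
    · exact inf_le_right
    · intro y hy
      obtain ⟨h1, h2⟩ := Submodule.mem_inf.1 hy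
      rw [hK]
      have := M.sub_mem h1 h2
      simpa using this
  have h2 : x ∉ K ⊔ L := fun h => hax (h1 ⟨hx, h⟩)
  -- L ≤ K
  have h3 : ∀ y, y ∈ L → y ∈ K := by
    intro y hy
    by_contra hyK
    rw [hK] at hyK
    obtain ⟨b, hb⟩ := exists_div hM (a * y) hyK
    apply h2
    have hxK : x - y * b * (a * x) ∈ K := by
      rw [hK]
      have : a * (x - y * b * (a * x)) = -((a * y * b - 1) * (a * x)) := by noncomm_ring
      rw [this]
      exact M.neg_mem (mulR hb _)
    have hyL : y * b * (a * x) ∈ L := by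
      rw [mul_assoc]; exact mulR hy _
    have := Submodule.add_mem_sup hxK hyL
    simpa using this
  have h4 : ∀ y, y ∈ L → y ∈ M := by
    intro y hy
    have e1 := h3 y hy
    rw [hK] at e1
    have e2 := (hL y).1 hy
    have := M.add_mem e2 e1
    simpa using this
  have h5 : x - a * x ∉ M := by
    intro h
    exact hax ((hK x).1 (h3 x ((hL x).2 h)))
  obtain ⟨b, hb⟩ := exists_div hM _ h5
  have h6 : (1 : A) - x * b * (1 - a) ∈ L := by
    rw [hL]
    have : (1 : A) - x * b * (1 - a) - a * (1 - x * b * (1 - a)) =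
        -(((x - a * x) * b - 1) * (1 - a)) := by noncomm_ring
    rw [this]
    exact M.neg_mem (mulR hb _)
  have h7 := h4 _ h6
  have h8 : x * b * (1 - a) ∈ M := by rw [mul_assoc]; exact mulR hx _
  have h9 := M.add_mem h7 h8
  rw [sub_add_cancel] at h9
  exact one_notMem hM h9

lemma nice (hD : RDist A) {M : Submodule Aᵐᵒᵖ A} (hM : IsCoatom M) : Nice M :=
  ⟨fun a x hx => F2 hD hM a x hx, exists_div hM, one_notMem hM⟩

end Pool.Agent.FlatRD
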