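import Pool.Agent.H87.FlatRD.Basic

set_option autoImplicit false

namespace Pool.Agent.FlatRD

open MulOpposite

universe v

variable {A : Type v} [Ring A]

section loc

variable {M : Submodule Aᵐᵒᵖ A} (hM : Nice M)

include hM

lemma prime' {a b : A} (ha : a ∉ M) (hb : b ∉ M) : a * b ∉ M := by
  intro h
  obtain ⟨c, hc⟩ := hM.div b hb
  apply ha
  have h1 : a * b * c ∈ M := mulR h c
  have h2 : a * (b * c - 1) ∈ M := hM.left a _ hc
  have h3 := M.sub_mem h1 h2
  have : a * b * c - a * (b * c - 1) = a := by noncomm_ring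
  rwa [this] at h3

lemma one_sub_notMem {r : A} (hr : r ∈ M) : 1 - r ∉ M := by
  intro h
  have := M.add_mem h hr
  rw [sub_add_cancel] at this
  exact hM.one this

lemma ore (hD : RDist A) (a : A) {s : A} (hs : s ∉ M) : ∃ t ∉ M, ∃ c : A, a * t = s * c := by
  obtain ⟨r, c, d, h1, h2⟩ := F1 hD a s
  by_cases hr : r ∈ M
  · have h3 := prime' hM hs (one_sub_notMem hM hr)
    rw [h2] at h3
    have hd : d ∉ M := fun h => h3 (hM.left _ _ h)
    exact ⟨d, hd, 1 - r, h2.symm⟩
  · exact ⟨r, hr, c, h1⟩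

lemma comp (hD : RDist A) (a b : A) :
    (∃ t ∉ M, ∃ c : A, a * t = b * c) ∨ (∃ t ∉ M, ∃ c : A, b * t = a * c) := by
  obtain ⟨r, c, d, h1, h2⟩ := F1 hD a b
  by_cases hr : r ∈ M
  · right
    exact ⟨1 - r, one_sub_notMem hM hr, d, h2⟩
  · left
    exact ⟨r, hr, c, h1⟩

lemma zeroLoc (hR : IsReduced A) (hD : RDist A) {a w : A} (h : a * w = 0)
    (ha : ∀ t, t ∉ M → a * t ≠ 0) : ∃ t ∉ M, w * t = 0 := by
  obtain ⟨r, h1, h2⟩ := F3 hR hD h
  have hr : r ∈ M := by
    by_contra hr
    exact ha r hr h1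
  refine ⟨1 - r, one_sub_notMem hM hr, ?_⟩
  apply comm0 hR
  rw [sub_mul, one_mul, h2, sub_self]

lemma zeroLoc' (hR : IsReduced A) (hD : RDist A) {a w : A} (h : a * w = 0)
    (ha : a ∉ M) : ∃ t ∉ M, w * t = 0 :=
  zeroLoc hM hR hD h (fun t ht e => prime' hM ha ht (by rw [e]; exact M.zero_mem))

/-- common right multiples -/
lemma common (hD : RDist A) {ι : Type} [Fintype ι] (P : ι → A → Prop)
    (hP : ∀ i t g, P i t → P i (t * g)) (h : ∀ i, ∃ t ∉ M, P i t) :
    ∃ t ∉ M, ∀ i, P i t := by
  classical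
  have key : ∀ s : Finset ι, ∃ t ∉ M, ∀ i ∈ s, P i t := by
    intro s
    induction s using Finset.induction_on with
    | empty => exact ⟨1, hM.one, by simp⟩
    | insert i s hi ih =>
      obtain ⟨t, ht, h1⟩ := ih
      obtain ⟨t', ht', h2⟩ := h i
      obtain ⟨g, hg, c, e⟩ := ore hM hD t ht'
      refine ⟨t * g, prime' hM ht hg, ?_⟩
      intro j hj
      rcases Finset.mem_insert.1 hj with rfl | hj
      · rw [e]; exact hP _ _ _ h2
      · exact hP _ _ _ (h1 j hj)
  obtain ⟨t, ht, h1⟩ := key Finset.univ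
  exact ⟨t, ht, fun i => h1 i (Finset.mem_univ i)⟩

lemma commonOre (hD : RDist A) {ι : Type} [Fintype ι] (a s : ι → A) (hs : ∀ i, s i ∉ M) :
    ∃ t ∉ M, ∃ c : ι → A, ∀ i, a i * t = s i * c i := by
  obtain ⟨t, ht, h⟩ := common hM hD (fun i t => ∃ c, a i * t = s i * c)
    (by rintro i t g ⟨c, hc⟩; exact ⟨c * g, by rw [← mul_assoc, hc, mul_assoc]⟩)
    (fun i => ore hM hD (a i) (hs i))
  choose c hc using h
  exact ⟨t, ht, c, hc⟩

lemma commonZero (hD : RDist A) {ι : Type} [Fintype ι] (w : ι → A)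
    (h : ∀ i, ∃ t ∉ M, w i * t = 0) :
    ∃ t ∉ M, ∀ i, w i * t = 0 :=
  common hM hD (fun i t => w i * t = 0)
    (by intro i t g h; rw [← mul_assoc, h, zero_mul]) h

/-- Gaussian elimination: surjectivity. -/
lemma elim_surj (hD : RDist A) : ∀ (m : ℕ) (B : Fin m → Fin m → A),
    (∀ l j, l ≠ j → B l j ∈ M) → (∀ j, B j j ∉ M) → ∀ z : Fin m → A,
    ∃ t ∉ M, ∃ s : Fin m → A, ∀ l, ∑ j, B l j * s j = z l * t := by
  intro m
  induction m with
  | zero => intro B _ _ z; exact ⟨1, hM.one, fun _ => 0, fun l => l.elim0⟩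
  | succ m ih =>
    intro B hoff hdiag z
    have hT : ∀ j : Fin m, ∃ t ∉ M, ∃ w, B 0 j.succ * t = B 0 0 * w :=
      fun j => ore hM hD _ (hdiag 0)
    choose T hT W hTW using hT
    obtain ⟨t0, ht0, c, hc⟩ := ore hM hD (z 0) (hdiag 0)
    obtain ⟨t1, ht1, s', hs'⟩ := ih (fun l j => B l.succ j.succ * T j - B l.succ 0 * W j)
      (by
        intro l j hlj
        refine M.sub_mem (mulR (hoff _ _ ?_) _) (mulR (hoff _ _ (Fin.succ_ne_zero _)) _)
        exact fun h => hlj (Fin.succ_injective _ h))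
      (by
        intro j h
        have h1 : B j.succ 0 * W j ∈ M := mulR (hoff _ _ (Fin.succ_ne_zero _)) _
        have h2 := M.add_mem h h1
        simp only [sub_add_cancel] at h2
        exact prime' hM (hdiag j.succ) (hT j) h2)
      (fun l => z l.succ * t0 - B l.succ 0 * c)
    refine ⟨t0 * t1, prime' hM ht0 ht1,
      Fin.cons (c * t1 - ∑ j, W j * s' j) (fun j => T j * s' j), ?_⟩
    intro l
    rw [Fin.sum_univ_succ]
    simp only [Fin.cons_zero, Fin.cons_succ]
    refine Fin.cases ?_ (fun l => ?_) l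
    · have h1 : ∑ j : Fin m, B 0 j.succ * (T j * s' j) = B 0 0 * ∑ j, W j * s' j := by
        rw [Finset.mul_sum]
        refine Finset.sum_congr rfl fun j _ => ?_
        rw [← mul_assoc, hTW, mul_assoc]
      rw [h1, mul_sub, sub_add_cancel, ← mul_assoc, ← hc, mul_assoc]
    · have h1 := hs' l
      simp only [sub_mul, Finset.sum_sub_distrib] at h1
      have h2 : ∑ j : Fin m, B l.succ j.succ * (T j * s' j) =
          ∑ j : Fin m, B l.succ j.succ * T j * s' j :=
        Finset.sum_congr rfl fun j _ => by rw [mul_assoc]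
      have h3 : ∑ j : Fin m, B l.succ 0 * W j * s' j = B l.succ 0 * ∑ j, W j * s' j := by
        rw [Finset.mul_sum]
        exact Finset.sum_congr rfl fun j _ => by rw [mul_assoc]
      rw [h2, mul_sub, ← h3]
      have h4 : ∑ j : Fin m, B l.succ j.succ * T j * s' j =
          z l.succ * t0 * t1 - B l.succ 0 * c * t1 + ∑ j : Fin m, B l.succ 0 * W j * s' j := by
        rw [← h1]; abel
      rw [h4]
      noncomm_ring

/-- Gaussian elimination: injectivity. -/
lemma elim_inj (hR : IsReduced A) (hD : RDist A) : ∀ (m : ℕ) (B : Fin m → Fin m → A),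
    (∀ l j, l ≠ j → B l j ∈ M) → (∀ j, B j j ∉ M) → ∀ s : Fin m → A,
    (∀ l, ∑ j, B l j * s j = 0) → ∃ t ∉ M, ∀ j, s j * t = 0 := by
  intro m
  induction m with
  | zero => intro B _ _ s _; exact ⟨1, hM.one, fun l => l.elim0⟩
  | succ m ih =>
    intro B hoff hdiag s hs
    have hT : ∀ j : Fin m, ∃ t ∉ M, ∃ w, B 0 j.succ * t = B 0 0 * w :=
      fun j => ore hM hD _ (hdiag 0)
    choose T hT W hTW using hT
    obtain ⟨t, ht, s', hs'⟩ := commonOre hM hD (fun j : Fin m => s j.succ) T hT
    have h0 : B 0 0 * (s 0 * t + ∑ j, W j * s' j) = 0 := by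
      have h1 := hs 0
      rw [Fin.sum_univ_succ] at h1
      have h2 : (B 0 0 * s 0 + ∑ i : Fin m, B 0 i.succ * s i.succ) * t = 0 := by
        rw [h1, zero_mul]
      rw [add_mul, Finset.sum_mul] at h2
      rw [mul_add, Finset.mul_sum, ← mul_assoc, ← h2]
      congr 1
      refine Finset.sum_congr rfl fun j _ => ?_
      rw [mul_assoc (B 0 j.succ), hs' j, ← mul_assoc, ← mul_assoc, hTW]
    obtain ⟨t2, ht2, h2⟩ := zeroLoc' hM hR hD h0 (hdiag 0)
    obtain ⟨t3, ht3, h3⟩ := ih (fun l j => B l.succ j.succ * T j - B l.succ 0 * W j)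
      (by
        intro l j hlj
        refine M.sub_mem (mulR (hoff _ _ ?_) _) (mulR (hoff _ _ (Fin.succ_ne_zero _)) _)
        exact fun h => hlj (Fin.succ_injective _ h))
      (by
        intro j h
        have h1 : B j.succ 0 * W j ∈ M := mulR (hoff _ _ (Fin.succ_ne_zero _)) _
        have h2 := M.add_mem h h1
        simp only [sub_add_cancel] at h2
        exact prime' hM (hdiag j.succ) (hT j) h2)
      (fun j => s' j * t2)
      (by
        intro l
        have h1 := hs l.succ
        rw [Fin.sum_univ_succ] at h1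
        have h4 : (B l.succ 0 * s 0 + ∑ i : Fin m, B l.succ i.succ * s i.succ) * (t * t2) = 0 := by
          rw [h1, zero_mul]
        rw [add_mul, Finset.sum_mul] at h4
        have h5 : ∀ i : Fin m, B l.succ i.succ * s i.succ * (t * t2) =
            B l.succ i.succ * T i * (s' i * t2) := by
          intro i
          calc B l.succ i.succ * s i.succ * (t * t2)
              = B l.succ i.succ * (s i.succ * t) * t2 := by noncomm_ring
            _ = B l.succ i.succ * (T i * s' i) * t2 := by rw [hs' i]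
            _ = _ := by noncomm_ring
        have h6 : B l.succ 0 * s 0 * (t * t2) =
            -∑ i : Fin m, B l.succ 0 * W i * (s' i * t2) := by
          have e : s 0 * t * t2 = -((∑ j, W j * s' j) * t2) := by
            rw [add_mul] at h2
            exact eq_neg_of_add_eq_zero_left h2
          have e2 : B l.succ 0 * s 0 * (t * t2) = B l.succ 0 * (s 0 * t * t2) := by noncomm_ring
          rw [e2, e, mul_neg, Finset.sum_mul, Finset.mul_sum]
          congr 1
          refine Finset.sum_congr rfl fun j _ => ?_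
          noncomm_ring
        simp only [sub_mul, Finset.sum_sub_distrib]
        rw [h6] at h4
        simp only [h5] at h4
        rw [← h4]; abel)
    refine ⟨t * t2 * t3, prime' hM (prime' hM ht ht2) ht3, ?_⟩
    intro j
    refine Fin.cases ?_ (fun j => ?_) j
    · have e : s 0 * t * t2 = -((∑ j, W j * s' j) * t2) := by
        rw [add_mul] at h2
        exact eq_neg_of_add_eq_zero_left h2
      have e2 : s 0 * (t * t2 * t3) = (s 0 * t * t2) * t3 := by noncomm_ring
      rw [e2, e, neg_mul, Finset.sum_mul, Finset.sum_mul, neg_eq_zero]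
      refine Finset.sum_eq_zero fun j _ => ?_
      have := h3 j
      rw [mul_assoc (W j), mul_assoc (W j), this, mul_zero]
    · have e2 : s j.succ * (t * t2 * t3) = (s j.succ * t) * t2 * t3 := by noncomm_ring
      have e3 : s j.succ * t = T j * s' j := hs' j
      rw [e2, e3]
      have := h3 j
      rw [mul_assoc (T j), mul_assoc (T j), this, mul_zero]

end loc

end Pool.Agent.FlatRD
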