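import Pool.Agent.H87.FlatRD.Main

set_option autoImplicit false

namespace Pool.Agent.FlatRD

open MulOpposite

universe v

variable {A : Type v} [Ring A]

lemma N_mul {n : ℕ} {a : Fin (n + 1) → A} {x : Fin (n + 1) → A} (hx : N a x) (t : A) :
    N a (fun j => x j * t) := by
  unfold N at *
  have : ∑ j, a j * (x j * t) = (∑ j, a j * x j) * t := by
    rw [Finset.sum_mul]
    exact Finset.sum_congr rfl fun j _ => by rw [mul_assoc]
  rw [this, hx, zero_mul]

lemma N_sub {n : ℕ} {a : Fin (n + 1) → A} {x z : Fin (n + 1) → A} (hx : N a x) (hz : N a z) :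
    N a (fun j => x j - z j) := by
  unfold N at *
  simp only [mul_sub, Finset.sum_sub_distrib, hx, hz, sub_zero]

lemma N_sum {n : ℕ} {a : Fin (n + 1) → A} {ι : Type} (s : Finset ι)
    (x : ι → Fin (n + 1) → A) (hx : ∀ k ∈ s, N a (x k)) :
    N a (fun j => ∑ k ∈ s, x k j) := by
  unfold N at *
  simp only [Finset.mul_sum]
  rw [Finset.sum_comm]
  exact Finset.sum_eq_zero hx

section loc

variable {n : ℕ} {a : Fin (n + 1) → A} (D : Dat a) (hR : IsReduced A) (hD : RDist A)
  {M : Submodule Aᵐᵒᵖ A} (hMc : IsCoatom M) (hK : K a ≤ M)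

include D hR hD hMc hK

omit D hR in
/-- the local basis of `N` -/
lemma basis : ∃ (i : Fin (n + 1)) (u : A) (b : Fin n → Fin (n + 1) → A),
    u ∉ M ∧ (∀ t, t ∉ M → a i * t ≠ 0) ∧ (∀ j, N a (b j)) ∧
    (∀ j l, b j (i.succAbove l) = if l = j then u else 0) := by
  classical
  have hM := nice hD hMc
  obtain ⟨i, u, hu, huM⟩ := exists_U hD a hM
  have hnv := nonvan hD a hM hK hu huM
  choose c hc using hu
  refine ⟨i, u, fun j => i.insertNth (-(c (i.succAbove j))) (fun l => if l = j then u else 0),
    huM, hnv, ?_, ?_⟩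
  · intro j
    unfold N
    rw [Fin.sum_univ_succAbove _ i]
    simp only [Fin.insertNth_apply_same, Fin.insertNth_apply_succAbove, mul_neg, mul_ite,
      mul_zero, Finset.sum_ite_eq', Finset.mem_univ, if_true]
    rw [hc]
    abel
  · intro j l
    simp

omit D hK in
/-- A solution of `N` supported at the single coordinate `i` is locally zero. -/
lemma supp {i : Fin (n + 1)} (hnv : ∀ t, t ∉ M → a i * t ≠ 0) {r : Fin (n + 1) → A}
    (hr : N a r) (h0 : ∀ l, r (i.succAbove l) = 0) : ∃ t ∉ M, ∀ j, r j * t = 0 := by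
  have hM := nice hD hMc
  unfold N at hr
  rw [Fin.sum_univ_succAbove _ i] at hr
  simp only [h0, mul_zero, Finset.sum_const_zero, add_zero] at hr
  obtain ⟨t, ht, h⟩ := zeroLoc hM hR hD hr hnv
  refine ⟨t, ht, fun j => ?_⟩
  rcases Fin.eq_self_or_eq_succAbove i j with rfl | ⟨l, rfl⟩
  · exact h
  · rw [h0, zero_mul]

lemma loc_surj {z : Fin (n + 1) → A} (hz : N a z) :
    ∃ t ∉ M, ∃ y, N a y ∧ ∀ l, D.E y l = z l * t := by
  have hM := nice hD hMc
  obtain ⟨i, u, b, hu, hnv, hb, hbu⟩ := basis (a := a) hD hMc hK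
  have hB : ∀ l j, D.E (b j) (i.succAbove l) =
      (if l = j then u else 0) - ∑ k, D.C (i.succAbove l) k * b j k := by
    intro l j
    unfold Dat.E
    rw [hbu]
  obtain ⟨t, ht, s, hs⟩ := elim_surj hM hD n (fun l j => D.E (b j) (i.succAbove l))
    (by
      intro l j hlj
      simp only [hB, if_neg hlj, zero_sub]
      exact M.neg_mem (D.key hR hD hMc hK (hb j) _))
    (by
      intro j h
      simp only [hB, if_true] at h
      have := M.add_mem h (D.key hR hD hMc hK (hb j) (i.succAbove j))
      rw [sub_add_cancel] at this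
      exact hu this)
    (fun l => z (i.succAbove l))
  -- y = Σ b_j s_j
  let y : Fin (n + 1) → A := fun k => ∑ j, b j k * s j
  have hy : N a y := N_sum _ (fun j k => b j k * s j) (fun j _ => N_mul (hb j) _)
  have hEy : ∀ l, D.E y l = ∑ j, D.E (b j) l * s j := by
    intro l
    have : D.E y l = ∑ j, D.E (fun k => b j k * s j) l :=
      D.E_sum Finset.univ (fun j k => b j k * s j) l
    rw [this]
    exact Finset.sum_congr rfl fun j _ => D.E_mul _ _ _
  obtain ⟨t', ht', h'⟩ := supp hR hD hMc hnv
    (N_sub (D.E_N y) (N_mul hz t)) (by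
      intro l
      rw [hEy, hs, sub_self])
  refine ⟨t * t', prime' hM ht ht', fun j => y j * t', N_mul hy _, ?_⟩
  intro l
  rw [D.E_mul, ← mul_assoc, ← sub_eq_zero, ← sub_mul]
  exact h' l

lemma loc_inj {x : Fin (n + 1) → A} (hx : N a x) (hE : ∀ l, D.E x l ∈ K a) :
    ∃ t ∉ M, ∀ j, x j * t = 0 := by
  have hM := nice hD hMc
  obtain ⟨i, u, b, hu, hnv, hb, hbu⟩ := basis (a := a) hD hMc hK
  have hB : ∀ l j, D.E (b j) (i.succAbove l) =
      (if l = j then u else 0) - ∑ k, D.C (i.succAbove l) k * b j k := by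
    intro l j
    unfold Dat.E
    rw [hbu]
  -- kill E x
  obtain ⟨t0, ht0, h0⟩ := commonZero hM hD (fun l => D.E x l)
    (fun l => K_loc hR hD a hM hK (hE l))
  obtain ⟨t, ht, s, hs⟩ := commonOre hM hD (fun j : Fin n => x (i.succAbove j)) (fun _ => u)
    (fun _ => hu)
  let y : Fin (n + 1) → A := fun k => ∑ j, b j k * s j
  have hy : N a y := N_sum _ (fun j k => b j k * s j) (fun j _ => N_mul (hb j) _)
  have hEy : ∀ l, D.E y l = ∑ j, D.E (b j) l * s j := by
    intro l
    have : D.E y l = ∑ j, D.E (fun k => b j k * s j) l :=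
      D.E_sum Finset.univ (fun j k => b j k * s j) l
    rw [this]
    exact Finset.sum_congr rfl fun j _ => D.E_mul _ _ _
  obtain ⟨t', ht', h'⟩ := supp hR hD hMc hnv
    (N_sub (N_mul hx t) hy) (by
      intro l
      have : y (i.succAbove l) = u * s l := by
        simp only [y, hbu, ite_mul, zero_mul, Finset.sum_ite_eq, Finset.mem_univ, if_true]
      rw [this, ← hs l, sub_self])
  -- x t t' = y t'
  have h1 : ∀ j, x j * t * t' = y j * t' := by
    intro j
    have := h' j
    rw [sub_mul, sub_eq_zero] at this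
    exact this
  obtain ⟨t1, ht1, ⟨g, hg⟩⟩ := ore hM hD (t * t') ht0
  have h2 : ∀ l, D.E y l * (t' * t1) = 0 := by
    intro l
    have e1 : D.E (fun j => x j * t * t') l = D.E (fun j => y j * t') l := by
      simp only [h1]
    have e2 : D.E (fun j => x j * t * t') l = D.E x l * (t * t') := by
      simp only [mul_assoc]; rw [D.E_mul]
    rw [e2, D.E_mul y] at e1
    rw [← mul_assoc, ← e1, mul_assoc, hg, ← mul_assoc, h0, zero_mul]
  obtain ⟨t2, ht2, h3⟩ := elim_inj hM hR hD n (fun l j => D.E (b j) (i.succAbove l))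
    (by
      intro l j hlj
      simp only [hB, if_neg hlj, zero_sub]
      exact M.neg_mem (D.key hR hD hMc hK (hb j) _))
    (by
      intro j h
      simp only [hB, if_true] at h
      have := M.add_mem h (D.key hR hD hMc hK (hb j) (i.succAbove j))
      rw [sub_add_cancel] at this
      exact hu this)
    (fun j => s j * (t' * t1)) (by
      intro l
      rw [← h2 (i.succAbove l), hEy, Finset.sum_mul]
      exact Finset.sum_congr rfl fun j _ => by rw [mul_assoc])
  refine ⟨t * t' * t1 * t2, prime' hM (prime' hM (prime' hM ht ht') ht1) ht2, ?_⟩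
  intro j
  have e : x j * (t * t' * t1 * t2) = (x j * t * t') * t1 * t2 := by noncomm_ring
  rw [e, h1 j]
  simp only [y, Finset.sum_mul]
  refine Finset.sum_eq_zero fun k _ => ?_
  have := h3 k
  calc b k j * s k * t' * t1 * t2 = b k j * (s k * (t' * t1) * t2) := by noncomm_ring
    _ = 0 := by rw [this, mul_zero]

end loc

section glob

variable {n : ℕ} {a : Fin (n + 1) → A} (D : Dat a) (hR : IsReduced A) (hD : RDist A)

include D hR hD

lemma glob_surj {z : Fin (n + 1) → A} (hz : N a z) :
    ∃ y, N a y ∧ ∀ l, D.E y l - z l ∈ K a := by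
  let T : Submodule Aᵐᵒᵖ A :=
    { carrier := {t | ∃ y, N a y ∧ ∀ l, D.E y l - z l * t ∈ K a}
      add_mem' := by
        rintro t t' ⟨y, hy, h⟩ ⟨y', hy', h'⟩
        refine ⟨fun j => y j - (0 - y' j), N_sub hy (N_sub ?_ hy'), ?_⟩
        · unfold N; simp
        intro l
        have e : D.E (fun j => y j - (0 - y' j)) l = D.E y l + D.E y' l := by
          rw [D.E_sub, D.E_sub (fun _ => 0) y']
          have e0 : D.E (fun _ => 0) l = 0 := by unfold Dat.E; simp
          rw [e0]; abel
        rw [e, mul_add]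
        have := (K a).add_mem (h l) (h' l)
        have e2 : D.E y l + D.E y' l - (z l * t + z l * t') =
          D.E y l - z l * t + (D.E y' l - z l * t') := by abel
        rw [e2]; exact this
      zero_mem' := by
        refine ⟨fun _ => 0, by unfold N; simp, fun l => ?_⟩
        have : D.E (fun _ => 0) l - z l * 0 = 0 := by unfold Dat.E; simp
        rw [this]; exact (K a).zero_mem
      smul_mem' := by
        rintro c t ⟨y, hy, h⟩
        refine ⟨fun j => y j * unop c, N_mul hy _, fun l => ?_⟩
        have : D.E (fun j => y j * unop c) l - z l * (c • t) =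
            (D.E y l - z l * t) * unop c := by
          rw [D.E_mul, sub_mul]; simp [mul_assoc]
        rw [this]; exact mulR (h l) _ }
  have hT : ∀ t, t ∈ T ↔ ∃ y, N a y ∧ ∀ l, D.E y l - z l * t ∈ K a := fun t => Iff.rfl
  by_contra hcon
  have h1 : (1 : A) ∉ T := by
    intro h
    rw [hT] at h
    simp only [mul_one] at h
    exact hcon h
  obtain ⟨M, hM, hTM⟩ := exists_coatom T h1
  have hK : K a ≤ M := by
    intro k hk
    apply hTM
    rw [hT]
    refine ⟨fun _ => 0, by unfold N; simp, fun l => ?_⟩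
    have : D.E (fun _ => 0) l - z l * k = -(z l * k) := by unfold Dat.E; simp
    rw [this]
    exact (K a).neg_mem (K_left hR a hk _)
  obtain ⟨t, ht, y, hy, h⟩ := loc_surj D hR hD hM hK hz
  apply ht
  apply hTM
  rw [hT]
  exact ⟨y, hy, fun l => by rw [h, sub_self]; exact (K a).zero_mem⟩

lemma glob_inj {x : Fin (n + 1) → A} (hx : N a x) (hE : ∀ l, D.E x l ∈ K a) (j : Fin (n + 1)) :
    x j ∈ K a := by
  let T : Submodule Aᵐᵒᵖ A :=
    { carrier := {t | x j * t ∈ K a}
      add_mem' := by
        intro t t' h h'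
        change x j * (t + t') ∈ K a
        rw [mul_add]; exact (K a).add_mem h h'
      zero_mem' := by change x j * 0 ∈ K a; rw [mul_zero]; exact (K a).zero_mem
      smul_mem' := by
        intro c t h
        change x j * (c • t) ∈ K a
        have : x j * (c • t) = (x j * t) * unop c := by simp [mul_assoc]
        rw [this]; exact mulR h _ }
  have hT : ∀ t, t ∈ T ↔ x j * t ∈ K a := fun t => Iff.rfl
  by_contra hcon
  have h1 : (1 : A) ∉ T := by
    intro h
    rw [hT, mul_one] at h
    exact hcon h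
  obtain ⟨M, hM, hTM⟩ := exists_coatom T h1
  have hK : K a ≤ M := by
    intro k hk
    apply hTM
    rw [hT]
    exact K_left hR a hk _
  obtain ⟨t, ht, h⟩ := loc_inj D hR hD hM hK hx hE
  apply ht
  apply hTM
  rw [hT, h]
  exact (K a).zero_mem

/-- the matrix trivialising a given relation -/
lemma exists_F {x : Fin (n + 1) → A} (hx : N a x) :
    ∃ F : Fin (n + 1) → Fin (n + 1) → A, (∀ k, ∑ l, a l * F l k = 0) ∧
      ∀ l, ∑ k, F l k * x k = x l := by
  classical
  have h1 : ∀ k : Fin (n + 1), ∃ f, N a f ∧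
      ∀ l, D.E f l - D.E (fun j => if j = k then 1 else 0) l ∈ K a :=
    fun k => glob_surj D hR hD (D.E_N _)
  choose f hf hfE using h1
  -- w = F' x - x
  have hw : N a (fun l => ∑ k, f k l * x k - x l) :=
    N_sub (N_sum _ (fun k l => f k l * x k) (fun k _ => N_mul (hf k) _)) hx
  have hwE : ∀ l, D.E (fun l => ∑ k, f k l * x k - x l) l ∈ K a := by
    intro l
    have e1 : D.E (fun l => ∑ k, f k l * x k - x l) l = ∑ k, D.E (f k) l * x k - D.E x l := by
      rw [D.E_sub (fun l => ∑ k, f k l * x k) x, D.E_sum Finset.univ (fun k l => f k l * x k)]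
      congr 1
      exact Finset.sum_congr rfl fun k _ => D.E_mul _ _ _
    have e2 : D.E x l = ∑ k, D.E (fun j => if j = k then 1 else 0) l * x k := by
      have : x = fun l => ∑ k, (if l = k then (1 : A) else 0) * x k := by
        funext l
        simp
      conv_lhs => rw [this]
      rw [D.E_sum Finset.univ (fun k l => (if l = k then (1 : A) else 0) * x k)]
      exact Finset.sum_congr rfl fun k _ => D.E_mul _ _ _
    rw [e1, e2, ← Finset.sum_sub_distrib]
    refine (K a).sum_mem fun k _ => ?_
    rw [← sub_mul]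
    exact mulR (hfE k l) _
  have hwK := fun l => glob_inj D hR hD hw hwE l
  obtain ⟨r, hr, hrw⟩ := K_pure hR hD a (fun l => ∑ k, f k l * x k - x l) hwK
  refine ⟨fun l k => f k l + r * ((if l = k then 1 else 0) - f k l), ?_, ?_⟩
  · intro k
    have e1 : ∀ l, a l * (f k l + r * ((if l = k then 1 else 0) - f k l)) = a l * f k l := by
      intro l
      rw [mul_add, ← mul_assoc (a l) r, hr l, zero_mul, add_zero]
    simp only [e1]
    exact hf k
  · intro l
    have e1 : ∀ k, (f k l + r * ((if l = k then 1 else 0) - f k l)) * x k =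
        f k l * x k + (r * ((if l = k then 1 else 0) * x k) - r * (f k l * x k)) := by
      intro k; noncomm_ring
    simp only [e1, Finset.sum_add_distrib, Finset.sum_sub_distrib, ← Finset.mul_sum]
    have e2 : ∑ k, (if l = k then (1 : A) else 0) * x k = x l := by simp
    rw [e2]
    have e3 := hrw l
    have e4 : r * x l - r * ∑ k, f k l * x k = -(r * (∑ k, f k l * x k - x l)) := by
      rw [mul_sub]; abel
    rw [e4, e3]
    abel

end glob

/-- Central partitions of unity: whenever finitely many right ideals sum to `A`, one can write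
`1 = y_1 + ... + y_n` with `y_i` in the `i`-th right ideal and central modulo every maximal
right ideal. -/
def CentralPartition (A : Type v) [Ring A] : Prop :=
  ∀ (n : ℕ) (W : Fin n → Submodule Aᵐᵒᵖ A), (⨆ i, W i) = ⊤ →
    ∃ y : Fin n → A, (∀ i, y i ∈ W i) ∧ ∑ i, y i = 1 ∧
      ∀ i, ∀ M : Submodule Aᵐᵒᵖ A, IsCoatom M → ∀ b : A, y i * b - b * y i ∈ M

/-- The equational criterion for flatness of the right ideal `I`. -/
def FlatRightIdeal (A : Type v) [Ring A] (I : Submodule Aᵐᵒᵖ A) : Prop :=
  ∀ (n : ℕ) (m a : Fin n → A), (∀ i, m i ∈ I) → ∑ i, m i * a i = 0 →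
    ∃ (k : ℕ) (y : Fin k → A) (B : Fin k → Fin n → A),
      (∀ j, y j ∈ I) ∧ (∀ i, m i = ∑ j, y j * B j i) ∧ (∀ j, ∑ i, B j i * a i = 0)

theorem flat_of_partition (hR : IsReduced A) (hD : RDist A) (hP : CentralPartition A)
    (I : Submodule Aᵐᵒᵖ A) : FlatRightIdeal A I := by
  classical
  intro n m x hm h
  rcases n with _ | n
  · exact ⟨0, fun j => j.elim0, fun j => j.elim0, fun j => j.elim0, fun i => i.elim0,
      fun j => j.elim0⟩
  · have hsup : (⨆ i, V m i) = ⊤ := by
      by_contra hcon
      have h1 : (1 : A) ∉ ⨆ i, V m i := by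
        intro h1
        apply hcon
        rw [Submodule.eq_top_iff']
        intro y
        have := mulR h1 y
        simpa using this
      obtain ⟨M, hM, hle⟩ := exists_coatom _ h1
      obtain ⟨i, hi⟩ := exists_V hD m hM
      exact hi (le_trans (le_iSup _ i) hle)
    obtain ⟨y, hy, hsum, hcen⟩ := hP (n + 1) (V m) hsup
    choose C hC hCM using hy
    let D : Dat m := ⟨C, y, fun i j => hC i j, hCM, hsum, hcen⟩
    obtain ⟨F, hF1, hF2⟩ := exists_F D hR hD (x := x) h
    refine ⟨n + 1, m, fun j i => (if j = i then 1 else 0) - F j i, hm, ?_, ?_⟩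
    · intro i
      simp only [mul_sub, Finset.sum_sub_distrib, hF1, sub_zero]
      simp
    · intro j
      simp only [sub_mul, Finset.sum_sub_distrib, hF2]
      simp

end Pool.Agent.FlatRD
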