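import Pool.Agent.H87.FlatRD.Elim

set_option autoImplicit false

namespace Pool.Agent.FlatRD

open MulOpposite

universe v

variable {A : Type v} [Ring A]

/-- every proper right ideal lies in a maximal one -/
lemma exists_coatom (W : Submodule Aᵐᵒᵖ A) (h : (1 : A) ∉ W) :
    ∃ M : Submodule Aᵐᵒᵖ A, IsCoatom M ∧ W ≤ M := by
  have : IsCoatomic (Submodule Aᵐᵒᵖ A) := by
    apply CompleteLattice.coatomic_of_top_compact
    rw [← Submodule.fg_iff_compact]
    refine ⟨{1}, ?_⟩
    rw [Finset.coe_singleton, Submodule.eq_top_iff']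
    intro x
    rw [Submodule.mem_span_singleton]
    exact ⟨op x, by simp⟩
  rcases eq_top_or_exists_le_coatom W with h1 | ⟨M, hM, h1⟩
  · exact absurd (by rw [h1]; trivial) h
  · exact ⟨M, hM, h1⟩

lemma exists_residue (M : Submodule Aᵐᵒᵖ A) (hM : Nice M) :
    ∃ (k : Type v) (_ : Ring k) (φ : A →+* k), ∀ x, φ x = 0 ↔ x ∈ M := by
  let I : Ideal A :=
    { carrier := M
      add_mem' := fun ha hb => M.add_mem ha hb
      zero_mem' := M.zero_mem
      smul_mem' := fun c x hx => hM.left c x hx }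
  have : I.IsTwoSided := ⟨fun b ha => mulR (I := M) ha b⟩
  exact ⟨A ⧸ I, inferInstance, Ideal.Quotient.mk I, fun x => Ideal.Quotient.eq_zero_iff_mem⟩

section defs

variable {n : ℕ} (a : Fin n → A)

/-- `U i = {y : a_j y ∈ a_i A for all j}` -/
def U (i : Fin n) : Submodule Aᵐᵒᵖ A where
  carrier := {y | ∀ j, ∃ c, a j * y = a i * c}
  add_mem' := by
    intro y z hy hz j
    obtain ⟨c, hc⟩ := hy j
    obtain ⟨d, hd⟩ := hz j
    exact ⟨c + d, by rw [mul_add, mul_add, hc, hd]⟩
  zero_mem' := fun j => ⟨0, by simp⟩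
  smul_mem' := by
    intro c y hy j
    obtain ⟨d, hd⟩ := hy j
    refine ⟨d * unop c, ?_⟩
    rw [← mul_assoc, ← hd]
    simp [mul_assoc]

/-- elements of `U i` with multipliers in every maximal right ideal above `U i` -/
def V (i : Fin n) : Submodule Aᵐᵒᵖ A where
  carrier := {y | ∃ c : Fin n → A, (∀ j, a j * y = a i * c j) ∧
    ∀ M : Submodule Aᵐᵒᵖ A, IsCoatom M → U a i ≤ M → ∀ j, c j ∈ M}
  add_mem' := by
    rintro y z ⟨c, hc, hc'⟩ ⟨d, hd, hd'⟩
    exact ⟨fun j => c j + d j, fun j => by rw [mul_add, mul_add, hc, hd],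
      fun M hM h j => M.add_mem (hc' M hM h j) (hd' M hM h j)⟩
  zero_mem' := ⟨fun _ => 0, fun j => by simp, fun M _ _ _ => M.zero_mem⟩
  smul_mem' := by
    rintro e y ⟨c, hc, hc'⟩
    refine ⟨fun j => c j * unop e, fun j => ?_, fun M hM h j => mulR (hc' M hM h j) _⟩
    rw [← mul_assoc, ← hc]
    simp [mul_assoc]

/-- common annihilator -/
def K : Submodule Aᵐᵒᵖ A where
  carrier := {y | ∀ j, a j * y = 0}
  add_mem' := by
    intro y z hy hz j
    rw [mul_add, hy j, hz j, add_zero]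
  zero_mem' := fun j => by simp
  smul_mem' := by
    intro c y hy j
    have : a j * (c • y) = (a j * y) * unop c := by simp [mul_assoc]
    rw [this, hy j, zero_mul]

end defs

lemma exists_U (hD : RDist A) {n : ℕ} (a : Fin (n + 1) → A) {M : Submodule Aᵐᵒᵖ A}
    (hM : Nice M) : ∃ i, ∃ u ∈ U a i, u ∉ M := by
  classical
  have key : ∀ s : Finset (Fin (n + 1)), s.Nonempty →
      ∃ i ∈ s, ∀ j ∈ s, ∃ t ∉ M, ∃ c, a j * t = a i * c := by
    intro s hs
    induction hs using Finset.Nonempty.cons_induction with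
    | singleton i => exact ⟨i, by simp, by
        intro j hj
        rw [Finset.mem_singleton.1 hj]
        exact ⟨1, hM.one, 1, rfl⟩⟩
    | cons i s hi hs ih =>
      obtain ⟨k, hk, h⟩ := ih
      rcases comp hM hD (a i) (a k) with ⟨t, ht, c, e⟩ | ⟨t, ht, c, e⟩
      · refine ⟨k, by simp [hk], ?_⟩
        intro j hj
        rcases Finset.mem_cons.1 hj with rfl | hj
        · exact ⟨t, ht, c, e⟩
        · exact h j hj
      · refine ⟨i, by simp, ?_⟩
        intro j hj
        rcases Finset.mem_cons.1 hj with rfl | hj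
        · exact ⟨1, hM.one, 1, rfl⟩
        · obtain ⟨t', ht', c', e'⟩ := h j hj
          obtain ⟨g, hg, d, e''⟩ := ore hM hD c' ht
          refine ⟨t' * g, prime' hM ht' hg, c * d, ?_⟩
          rw [← mul_assoc, e', mul_assoc, e'', ← mul_assoc, e, mul_assoc]
  obtain ⟨i, -, h⟩ := key Finset.univ Finset.univ_nonempty
  obtain ⟨t, ht, h'⟩ := common hM hD (fun j t => ∃ c, a j * t = a i * c)
    (by rintro j t g ⟨c, hc⟩; exact ⟨c * g, by rw [← mul_assoc, hc, mul_assoc]⟩)
    (fun j => h j (Finset.mem_univ j))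
  exact ⟨i, t, h', ht⟩

lemma exists_V (hD : RDist A) {n : ℕ} (a : Fin (n + 1) → A) {M : Submodule Aᵐᵒᵖ A}
    (hM : IsCoatom M) : ∃ i, ¬ V a i ≤ M := by
  obtain ⟨i, u, hu, huM⟩ := exists_U hD a (nice hD hM)
  refine ⟨i, fun h => ?_⟩
  have h1 : u * u ∈ V a i := by
    choose c hc using hu
    refine ⟨fun j => c j * u, fun j => by rw [← mul_assoc, hc, mul_assoc], ?_⟩
    intro M' hM' hU j
    exact (nice hD hM').left _ _ (hU (fun j => ⟨c j, hc j⟩))
  exact prime' (nice hD hM) huM huM (h h1)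

section main

variable (hR : IsReduced A) (hD : RDist A) {n : ℕ} (a : Fin (n + 1) → A)

include hR in
lemma K_left {z : A} (hz : z ∈ K a) (b : A) : b * z ∈ K a := by
  intro j
  rw [← mul_assoc]
  exact mid0 hR (hz j) b

include hR hD in
lemma K_pure {ι : Type} [Fintype ι] (w : ι → A) (hw : ∀ i, w i ∈ K a) :
    ∃ r ∈ K a, ∀ i, r * w i = w i := by
  classical
  -- for one w
  have one : ∀ w ∈ K a, ∃ r ∈ K a, r * w = w := by
    intro w hw
    have h : ∀ s : Finset (Fin (n + 1)), ∃ r, (∀ j ∈ s, a j * r = 0) ∧ r * w = w := by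
      intro s
      induction s using Finset.induction_on with
      | empty => exact ⟨1, by simp, by simp⟩
      | insert i s hi ih =>
        obtain ⟨r, h1, h2⟩ := ih
        obtain ⟨r', h3, h4⟩ := F3 hR hD (hw i)
        refine ⟨r * r', ?_, by rw [mul_assoc, h4, h2]⟩
        intro j hj
        rcases Finset.mem_insert.1 hj with rfl | hj
        · rw [← mul_assoc]; exact mid0 hR h3 r
        · rw [← mul_assoc, h1 j hj, zero_mul]
    obtain ⟨r, h1, h2⟩ := h Finset.univ
    exact ⟨r, fun j => h1 j (Finset.mem_univ j), h2⟩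
  have h : ∀ s : Finset ι, ∃ r ∈ K a, ∀ i ∈ s, r * w i = w i := by
    intro s
    induction s using Finset.induction_on with
    | empty => exact ⟨0, (K a).zero_mem, by simp⟩
    | insert i s hi ih =>
      obtain ⟨r, h1, h2⟩ := ih
      obtain ⟨r', h3, h4⟩ := one (w i) (hw i)
      -- 1 - r'' = (1 - r)(1 - r')
      refine ⟨r + r' - r * r', ?_, ?_⟩
      · exact (K a).sub_mem ((K a).add_mem h1 h3) (mulR h1 _)
      · intro j hj
        rcases Finset.mem_insert.1 hj with rfl | hj
        · have : (r + r' - r * r') * w j = r * w j + r' * w j - r * (r' * w j) := by noncomm_ring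
          rw [this, h4]; abel
        · have h5 : (1 - r) * w j = 0 := by rw [sub_mul, h2 j hj, one_mul, sub_self]
          have h6 : (1 - r) * (1 - r') * w j = 0 := mid0 hR h5 _
          have : (r + r' - r * r') * w j = w j - (1 - r) * (1 - r') * w j := by noncomm_ring
          rw [this, h6, sub_zero]
  obtain ⟨r, h1, h2⟩ := h Finset.univ
  exact ⟨r, h1, fun i => h2 i (Finset.mem_univ i)⟩

include hR hD in
lemma K_loc {M : Submodule Aᵐᵒᵖ A} (hM : Nice M) (hK : K a ≤ M) {z : A} (hz : z ∈ K a) :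
    ∃ t ∉ M, z * t = 0 := by
  obtain ⟨r, hr, h⟩ := K_pure hR hD a (fun _ : Unit => z) (fun _ => hz)
  refine ⟨1 - r, one_sub_notMem hM (hK hr), ?_⟩
  apply comm0 hR
  rw [sub_mul, one_mul, h (), sub_self]

include hD in
lemma nonvan {M : Submodule Aᵐᵒᵖ A} (hM : Nice M) (hK : K a ≤ M) {i : Fin (n + 1)} {s : A}
    (hs : s ∈ U a i) (hsM : s ∉ M) : ∀ t, t ∉ M → a i * t ≠ 0 := by
  intro t ht h
  have h1 : ∀ j, ∃ τ ∉ M, a j * τ = 0 := by
    intro j
    obtain ⟨d, hd⟩ := hs j
    obtain ⟨g, hg, e, he⟩ := ore hM hD d ht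
    refine ⟨s * g, prime' hM hsM hg, ?_⟩
    rw [← mul_assoc, hd, mul_assoc, he, ← mul_assoc, h, zero_mul]
  obtain ⟨τ, hτ, h2⟩ := commonZero hM hD a h1
  exact hτ (hK h2)

/-- the kernel `N` -/
def N (x : Fin (n + 1) → A) : Prop := ∑ j, a j * x j = 0

end main

/-- The data: `C` with `a C = a` and central partition. -/
structure Dat {n : ℕ} (a : Fin (n + 1) → A) where
  C : Fin (n + 1) → Fin (n + 1) → A
  y : Fin (n + 1) → A
  hC : ∀ i j, a j * y i = a i * C i j
  hCM : ∀ i, ∀ M : Submodule Aᵐᵒᵖ A, IsCoatom M → U a i ≤ M → ∀ j, C i j ∈ M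
  hy : ∑ i, y i = 1
  hcen : ∀ i, ∀ M : Submodule Aᵐᵒᵖ A, IsCoatom M → ∀ b, y i * b - b * y i ∈ M

namespace Dat

variable {n : ℕ} {a : Fin (n + 1) → A} (D : Dat a)

/-- the matrix `E = 1 - C` acting on columns -/
def E (x : Fin (n + 1) → A) (l : Fin (n + 1)) : A := x l - ∑ j, D.C l j * x j

lemma E_N (x : Fin (n + 1) → A) : N a (D.E x) := by
  unfold N E
  simp only [mul_sub, Finset.sum_sub_distrib, Finset.mul_sum]
  rw [Finset.sum_comm, sub_eq_zero]
  refine Finset.sum_congr rfl fun j _ => ?_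
  calc a j * x j = a j * (∑ i, D.y i) * x j := by rw [D.hy, mul_one]
    _ = ∑ i, a i * (D.C i j * x j) := by
      rw [Finset.mul_sum, Finset.sum_mul]
      refine Finset.sum_congr rfl fun i _ => ?_
      rw [D.hC, mul_assoc]

lemma E_mul (x : Fin (n + 1) → A) (t : A) (l : Fin (n + 1)) :
    D.E (fun j => x j * t) l = D.E x l * t := by
  unfold E
  rw [sub_mul, Finset.sum_mul]
  congr 1
  exact Finset.sum_congr rfl fun j _ => by rw [mul_assoc]

lemma E_sub (x z : Fin (n + 1) → A) (l : Fin (n + 1)) :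
    D.E (fun j => x j - z j) l = D.E x l - D.E z l := by
  unfold E
  simp only [mul_sub, Finset.sum_sub_distrib]
  abel

lemma E_sum {ι : Type} (s : Finset ι) (x : ι → Fin (n + 1) → A) (l : Fin (n + 1)) :
    D.E (fun j => ∑ k ∈ s, x k j) l = ∑ k ∈ s, D.E (x k) l := by
  unfold E
  simp only [Finset.mul_sum, Finset.sum_sub_distrib]
  rw [Finset.sum_comm]

lemma key (hR : IsReduced A) (hD : RDist A) {M : Submodule Aᵐᵒᵖ A} (hMc : IsCoatom M)
    (hK : K a ≤ M) {x : Fin (n + 1) → A} (hx : N a x) (l : Fin (n + 1)) :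
    ∑ j, D.C l j * x j ∈ M := by
  have hM := nice hD hMc
  by_cases hU : U a l ≤ M
  · exact M.sum_mem fun j _ => mulR (D.hCM l M hMc hU j) _
  · obtain ⟨s, hs, hsM⟩ := Set.not_subset.1 hU
    have hnv := nonvan hD a hM hK hs hsM
    choose d hd using hs
    obtain ⟨t, ht, g, hg⟩ := ore hM hD (D.y l) hsM
    have h1 : ∀ j, D.C l j * t - d j * g ∈ M := by
      intro j
      have e : a l * (D.C l j * t - d j * g) = 0 := by
        rw [mul_sub, ← mul_assoc, ← D.hC, ← mul_assoc, ← hd, mul_assoc, hg, mul_assoc, sub_self]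
      obtain ⟨t', ht', h⟩ := zeroLoc hM hR hD e hnv
      by_contra hcon
      exact prime' hM hcon ht' (by rw [h]; exact M.zero_mem)
    obtain ⟨τ, hτ, ξ, hξ⟩ := commonOre hM hD x (fun _ => s) (fun _ => hsM)
    have h2 : ∑ j, d j * ξ j ∈ M := by
      have e : a l * (∑ j, d j * ξ j) = 0 := by
        have e1 : (∑ j, a j * x j) * τ = 0 := by rw [hx, zero_mul]
        rw [Finset.sum_mul] at e1
        rw [Finset.mul_sum, ← e1]
        refine Finset.sum_congr rfl fun j _ => ?_
        rw [← mul_assoc, ← hd, mul_assoc, ← hξ, mul_assoc]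
      obtain ⟨t', ht', h⟩ := zeroLoc hM hR hD e hnv
      by_contra hcon
      exact prime' hM hcon ht' (by rw [h]; exact M.zero_mem)
    obtain ⟨k, _, φ, hφ⟩ := exists_residue M hM
    -- inverses
    have inv : ∀ s : A, s ∉ M → ∃ s' : k, φ s * s' = 1 ∧ s' * φ s = 1 := by
      intro s hs
      obtain ⟨s', h⟩ := hM.div s hs
      have e1 : φ s * φ s' = 1 := by
        have := (hφ _).2 h
        rwa [map_sub, map_mul, map_one, sub_eq_zero] at this
      have hs' : s' ∉ M := by
        intro h'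
        rw [(hφ _).2 h', mul_zero] at e1
        have : φ 1 = 0 := by rw [map_one, ← e1]
        exact hM.one ((hφ _).1 this)
      obtain ⟨s'', h''⟩ := hM.div s' hs'
      have e2 : φ s' * φ s'' = 1 := by
        have := (hφ _).2 h''
        rwa [map_sub, map_mul, map_one, sub_eq_zero] at this
      have e3 : φ s'' = φ s := by
        calc φ s'' = φ s * φ s' * φ s'' := by rw [e1, one_mul]
          _ = φ s := by rw [mul_assoc, e2, mul_one]
      exact ⟨φ s', e1, by rw [← e3]; exact e2⟩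
    obtain ⟨S', hS1, hS2⟩ := inv s hsM
    obtain ⟨T', hT1, hT2⟩ := inv t ht
    obtain ⟨R', hR1, hR2⟩ := inv τ hτ
    have f1 : ∀ j, φ (D.C l j) = φ (d j) * S' * φ (D.y l) := by
      intro j
      have e1 : φ (D.C l j) * φ t = φ (d j) * φ g := by
        have := (hφ _).2 (h1 j)
        rwa [map_sub, map_mul, map_mul, sub_eq_zero] at this
      have e2 : φ (D.y l) * φ t = φ s * φ g := by rw [← map_mul, hg, map_mul]
      have e3 : φ g = S' * φ (D.y l) * φ t := by
        rw [mul_assoc, e2, ← mul_assoc, hS2, one_mul]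
      calc φ (D.C l j) = φ (D.C l j) * φ t * T' := by rw [mul_assoc, hT1, mul_one]
        _ = φ (d j) * S' * φ (D.y l) * (φ t * T') := by rw [e1, e3]; noncomm_ring
        _ = _ := by rw [hT1, mul_one]
    have f2 : ∑ j, φ (d j) * S' * φ (x j) = 0 := by
      have e1 : ∀ j, φ (d j) * S' * φ (x j) = φ (d j) * φ (ξ j) * R' := by
        intro j
        have e2 : φ (x j) * φ τ = φ s * φ (ξ j) := by rw [← map_mul, hξ, map_mul]
        calc φ (d j) * S' * φ (x j) = φ (d j) * S' * (φ (x j) * φ τ) * R' := by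
              rw [← mul_assoc, mul_assoc _ (φ τ), hR1, mul_one]
          _ = φ (d j) * (S' * φ s) * φ (ξ j) * R' := by rw [e2]; noncomm_ring
          _ = _ := by rw [hS2, mul_one]
      simp only [e1]
      rw [← Finset.sum_mul]
      have e2 : ∑ j, φ (d j) * φ (ξ j) = φ (∑ j, d j * ξ j) := by simp
      rw [e2, (hφ _).2 h2, zero_mul]
    rw [← hφ, map_sum]
    have f3 : ∀ j, φ (D.C l j * x j) = φ (d j) * S' * φ (x j) * φ (D.y l) := by
      intro j
      rw [map_mul, f1]
      have e1 : φ (D.y l) * φ (x j) = φ (x j) * φ (D.y l) := by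
        have := (hφ _).2 (D.hcen l M hMc (x j))
        rwa [map_sub, map_mul, map_mul, sub_eq_zero] at this
      rw [mul_assoc, e1, ← mul_assoc]
    simp only [f3]
    rw [← Finset.sum_mul, f2, zero_mul]

end Dat

end Pool.Agent.FlatRD
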